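import Pool.Agent.V7H41.CD.Spec

/-!
# Nearest classes (NEAR)
-/

set_option autoImplicit false

open Finset

namespace Pool.Agent.V7H31.CD

open Pool.Agent.V7H41.CC Pool.Agent.V7H41.CD

/-- the vertices of the spans of the classes -/
def MM {n : ℕ} (T : PhyloTree n) (Q : Finset (Finset (Fin n))) : Set T.V :=
  {v | ∃ A ∈ Q, v ∈ T.span A}

/-- a walk to a nearest vertex -/
theorem nearest {n : ℕ} (T : PhyloTree n) {S : Set T.V} (hS : S.Nonempty) (u : T.V) :
    ∃ (v : T.V) (w : T.G.Walk u v), v ∈ S ∧ ∀ x ∈ w.support, x ∈ S → x = v := by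
  classical
  have hex : ∃ N : ℕ, ∃ (v : T.V) (w : T.G.Walk u v), v ∈ S ∧ w.length = N := by
    obtain ⟨v, hv⟩ := hS
    obtain ⟨w⟩ := T.isTree.1.preconnected u v
    exact ⟨_, v, w, hv, rfl⟩
  obtain ⟨v, w, hv, hw⟩ := Nat.find_spec hex
  refine ⟨v, w, hv, fun x hx hxS => ?_⟩
  by_contra hne
  have h1 := SimpleGraph.Walk.length_takeUntil_lt hx hne
  rw [hw] at h1
  exact Nat.find_min hex h1 ⟨x, w.takeUntil x hx, hxS, rfl⟩

/-- the spans are connected -/
theorem span_conn {n : ℕ} (T : PhyloTree n) {B : Finset (Fin n)} {v v' : T.V}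
    (hv : v ∈ T.span B) (hv' : v' ∈ T.span B) :
    ∃ w : T.G.Walk v v', ∀ x ∈ w.support, x ∈ T.span B := by
  classical
  obtain ⟨a, ha, b, hb, p, hp, hvp⟩ := hv
  obtain ⟨a', ha', b', hb', p', hp', hvp'⟩ := hv'
  obtain ⟨q0⟩ := T.isTree.1.preconnected (T.leaf a) (T.leaf a')
  refine ⟨((p.takeUntil v hvp).reverse.append q0.bypass).append (p'.takeUntil v' hvp'), ?_⟩
  intro x hx
  rcases SimpleGraph.Walk.mem_support_append_iff _ _ |>.1 hx with hx | hx
  · rcases SimpleGraph.Walk.mem_support_append_iff _ _ |>.1 hx with hx | hx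
    · rw [SimpleGraph.Walk.support_reverse, List.mem_reverse] at hx
      exact ⟨a, ha, b, hb, p, hp, SimpleGraph.Walk.support_takeUntil_subset_support _ hvp hx⟩
    · exact ⟨a, ha, a', ha', q0.bypass, q0.bypass_isPath, hx⟩
  · exact ⟨a', ha', b', hb', p', hp', SimpleGraph.Walk.support_takeUntil_subset_support _ hvp' hx⟩

theorem t_NEAR : S_NEAR := by
  classical
  intro n T Q hQ hne hdis
  have hMne : (MM T Q).Nonempty := by
    obtain ⟨A, hA⟩ := hQ
    obtain ⟨i, hi⟩ := hne A hA
    exact ⟨T.leaf i, A, hA, i, hi, i, hi, SimpleGraph.Walk.nil, SimpleGraph.Walk.IsPath.nil,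
      by simp⟩
  choose v w hv hw using fun z : Fin n => nearest T hMne (T.leaf z)
  choose f hf hvf using hv
  refine ⟨f, hf, fun B D hD C hC hCB => ?_⟩
  rw [Set.disjoint_left]
  rintro x ⟨a, ha, b, hb, p, hp, hx⟩ hxC
  have hxM : x ∈ MM T Q := ⟨C, hC, hxC⟩
  have hBQ : B ∈ Q := by
    rw [← hD a ha]
    exact hf a
  have hva : v a ∈ T.span B := by
    have := hvf a
    rwa [hD a ha] at this
  have hvb : v b ∈ T.span B := by
    have := hvf b
    rwa [hD b hb] at this
  obtain ⟨q, hq⟩ := span_conn T hva hvb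
  have hpath : (((w a).append q).append (w b).reverse).bypass = p := by
    have h1 := T.isTree.2.path_unique
      ⟨_, (((w a).append q).append (w b).reverse).bypass_isPath⟩ ⟨p, hp⟩
    exact congrArg Subtype.val h1
  have hxB : x ∈ T.span B := by
    rw [← hpath] at hx
    have h2 := SimpleGraph.Walk.support_bypass_subset_support _ hx
    rcases SimpleGraph.Walk.mem_support_append_iff _ _ |>.1 h2 with h3 | h3
    · rcases SimpleGraph.Walk.mem_support_append_iff _ _ |>.1 h3 with h4 | h4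
      · rw [hw a x h4 hxM]
        exact hva
      · exact hq x h4
    · rw [SimpleGraph.Walk.support_reverse, List.mem_reverse] at h3
      rw [hw b x h3 hxM]
      exact hvb
  exact Set.disjoint_left.1 (hdis B hBQ C hC (Ne.symm hCB)) hxB hxC

end Pool.Agent.V7H31.CD
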