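import Pool.Agent.V7H41.CD.Spec
import Pool.Agent.V7H96.CC.SINGLE

/-!
# The families of the classes of size at least two (FAM)
-/

set_option autoImplicit false

open Finset

namespace Pool.Agent.V7H31.CD

open Pool.Agent.V7H41.CC Pool.Agent.V7H41.CD Pool.Agent.V7H96.CC

variable {n : ℕ}

/-- the remaining elements as singletons -/
noncomputable def Un (Q : Finset (Finset (Fin n))) : Finset (Finset (Fin n)) :=
  ((univ : Finset (Fin n)) \ Q.biUnion id).image (fun x => ({x} : Finset (Fin n)))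

theorem mem_Un {Q : Finset (Finset (Fin n))} {A : Finset (Fin n)} :
    A ∈ Un Q ↔ ∃ x, x ∉ Q.biUnion id ∧ A = {x} := by
  unfold Un
  rw [mem_image]
  constructor
  · rintro ⟨x, hx, rfl⟩
    exact ⟨x, (mem_sdiff.1 hx).2, rfl⟩
  · rintro ⟨x, hx, rfl⟩
    exact ⟨x, mem_sdiff.2 ⟨mem_univ _, hx⟩, rfl⟩

theorem leaf_in (T : PhyloTree n) {A : Finset (Fin n)} {i : Fin n} (hi : i ∈ A) :
    T.leaf i ∈ T.span A :=
  ⟨i, hi, i, hi, SimpleGraph.Walk.nil, SimpleGraph.Walk.IsPath.nil, by simp⟩

theorem filter_eq {Q : Finset (Finset (Fin n))} (h2 : ∀ A ∈ Q, 2 ≤ A.card) :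
    (Q ∪ Un Q).filter (fun A => 2 ≤ A.card) = Q := by
  ext A
  rw [mem_filter, mem_union]
  constructor
  · rintro ⟨h | h, h3⟩
    · exact h
    · obtain ⟨x, -, rfl⟩ := mem_Un.1 h
      simp at h3
  · intro h
    exact ⟨Or.inl h, h2 A h⟩

theorem exists_part {Q : Finset (Finset (Fin n))} (h2 : ∀ A ∈ Q, 2 ≤ A.card)
    (hdis : ∀ A ∈ Q, ∀ B ∈ Q, A ≠ B → Disjoint A B) :
    ∃ P : Finpartition (univ : Finset (Fin n)), P.parts = Q ∪ Un Q := by
  refine ⟨Finpartition.ofExistsUnique (Q ∪ Un Q) (fun _ _ => subset_univ _) ?_ ?_, rfl⟩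
  · intro a _
    by_cases ha : a ∈ Q.biUnion id
    · obtain ⟨A, hA, haA⟩ := mem_biUnion.1 ha
      refine ⟨A, ⟨mem_union_left _ hA, haA⟩, ?_⟩
      rintro B ⟨hB, haB⟩
      rcases mem_union.1 hB with hB | hB
      · by_contra hne
        exact (Finset.disjoint_left.1 (hdis B hB A hA hne)) haB haA
      · obtain ⟨x, hx, rfl⟩ := mem_Un.1 hB
        rw [mem_singleton] at haB
        subst haB
        exact absurd ha hx
    · refine ⟨{a}, ⟨mem_union_right _ (mem_Un.2 ⟨a, ha, rfl⟩), mem_singleton_self a⟩, ?_⟩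
      rintro B ⟨hB, haB⟩
      rcases mem_union.1 hB with hB | hB
      · exact absurd (mem_biUnion.2 ⟨B, hB, haB⟩) ha
      · obtain ⟨x, hx, rfl⟩ := mem_Un.1 hB
        rw [mem_singleton] at haB
        rw [haB]
  · intro h
    rcases mem_union.1 h with h | h
    · have := h2 _ h
      simp at this
    · obtain ⟨x, -, hx⟩ := mem_Un.1 h
      exact absurd hx.symm (by simp)

theorem card_eq {Q : Finset (Finset (Fin n))} (h2 : ∀ A ∈ Q, 2 ≤ A.card)
    (hdis : ∀ A ∈ Q, ∀ B ∈ Q, A ≠ B → Disjoint A B) :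
    (Q ∪ Un Q).card + ∑ A ∈ Q, (A.card - 1) = n := by
  have hcard : (Q.biUnion id).card = ∑ A ∈ Q, A.card := Finset.card_biUnion hdis
  have hle : (Q.biUnion id).card ≤ n := (card_le_univ _).trans (by simp)
  have hUc : (Un Q).card = n - (Q.biUnion id).card := by
    unfold Un
    rw [card_image_of_injective _ (Finset.singleton_injective),
      card_sdiff_of_subset (subset_univ _)]
    simp
  have hQU : Disjoint Q (Un Q) := by
    rw [Finset.disjoint_left]
    intro A hA hA'
    have h1 := h2 A hA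
    obtain ⟨x, -, rfl⟩ := mem_Un.1 hA'
    simp at h1
  have h3 : ∑ A ∈ Q, A.card = ∑ A ∈ Q, (A.card - 1) + Q.card := by
    rw [card_eq_sum_ones, ← sum_add_distrib]
    refine sum_congr rfl fun A hA => ?_
    have := h2 A hA
    omega
  rw [card_union_of_disjoint hQU, hUc]
  omega

theorem parts_eq (P : Finpartition (univ : Finset (Fin n))) :
    P.parts = P.parts.filter (fun A => 2 ≤ A.card) ∪
      Un (P.parts.filter (fun A => 2 ≤ A.card)) := by
  ext A
  rw [mem_union, mem_filter, mem_Un]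
  constructor
  · intro hA
    by_cases h : 2 ≤ A.card
    · exact Or.inl ⟨hA, h⟩
    · right
      have h1 : A.card = 1 := by
        have := card_pos.2 (P.nonempty_of_mem_parts hA)
        omega
      obtain ⟨x, rfl⟩ := card_eq_one.1 h1
      refine ⟨x, fun hx => ?_, rfl⟩
      obtain ⟨B, hB, hxB⟩ := mem_biUnion.1 hx
      rw [mem_filter] at hB
      have h3 : B = {x} := P.eq_of_mem_parts hB.1 hA hxB (mem_singleton_self x)
      rw [h3] at hB
      exact h hB.2
  · rintro (h | ⟨x, hx, rfl⟩)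
    · exact h.1
    · obtain ⟨B, hB, hxB⟩ := P.exists_mem (mem_univ x)
      have h1 : ¬ 2 ≤ B.card := fun h => hx (mem_biUnion.2 ⟨B, mem_filter.2 ⟨hB, h⟩, hxB⟩)
      have h2 : B.card = 1 := by
        have := card_pos.2 ⟨x, hxB⟩
        omega
      obtain ⟨y, rfl⟩ := card_eq_one.1 h2
      have h3 : x = y := mem_singleton.1 hxB
      rw [h3]
      exact hB

theorem convex_iff (R : PhyloTree n) {P : Finpartition (univ : Finset (Fin n))}
    {Q : Finset (Finset (Fin n))} (hP : P.parts = Q ∪ Un Q) :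
    R.Convex P ↔ ∀ A ∈ Q, ∀ B ∈ Q, A ≠ B → Disjoint (R.span A) (R.span B) := by
  constructor
  · intro h A hA B hB hAB
    exact h A (by rw [hP]; exact mem_union_left _ hA) B (by rw [hP]; exact mem_union_left _ hB) hAB
  · intro hR A hA B hB hAB
    rw [hP] at hA hB
    rcases mem_union.1 hA with hA' | hA' <;> rcases mem_union.1 hB with hB' | hB'
    · exact hR A hA' B hB' hAB
    · obtain ⟨x, hx, rfl⟩ := mem_Un.1 hB'
      rw [span_single, Set.disjoint_singleton_right]
      exact leaf_notMem R _ x (fun h => hx (mem_biUnion.2 ⟨A, hA', h⟩))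
    · obtain ⟨x, hx, rfl⟩ := mem_Un.1 hA'
      rw [span_single, Set.disjoint_singleton_left]
      exact leaf_notMem R _ x (fun h => hx (mem_biUnion.2 ⟨B, hB', h⟩))
    · obtain ⟨x, hx, rfl⟩ := mem_Un.1 hA'
      obtain ⟨y, hy, rfl⟩ := mem_Un.1 hB'
      rw [span_single, span_single, Set.disjoint_singleton]
      intro h
      exact hAB (by rw [R.leaf_inj h])

theorem t_FAM : S_FAM := by
  classical
  intro n m T F hm
  have himg : {Q | IsFam T F m Q} =
      (fun P : Finpartition (univ : Finset (Fin n)) => P.parts.filter (fun A => 2 ≤ A.card)) ''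
        {P : Finpartition (univ : Finset (Fin n)) |
          T.Convex P ∧ F.Convex P ∧ P.parts.card = n - m} := by
    ext Q
    constructor
    · rintro ⟨h2, hs, hd⟩
      have hdis : ∀ A ∈ Q, ∀ B ∈ Q, A ≠ B → Disjoint A B := by
        intro A hA B hB hAB
        rw [Finset.disjoint_left]
        intro x hx hx'
        exact Set.disjoint_left.1 (hd A hA B hB hAB).1 (leaf_in T hx) (leaf_in T hx')
      obtain ⟨P, hP⟩ := exists_part h2 hdis
      refine ⟨P, ⟨(convex_iff T hP).2 fun A hA B hB h => (hd A hA B hB h).1,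
        (convex_iff F hP).2 fun A hA B hB h => (hd A hA B hB h).2, ?_⟩, ?_⟩
      · have h3 := card_eq h2 hdis
        rw [hP]
        omega
      · show P.parts.filter (fun A => 2 ≤ A.card) = Q
        rw [hP, filter_eq h2]
    · rintro ⟨P, ⟨hT, hF, hc⟩, rfl⟩
      have hP := parts_eq P
      obtain ⟨Q, hQ⟩ : ∃ Q, Q = P.parts.filter (fun A => 2 ≤ A.card) := ⟨_, rfl⟩
      show IsFam T F m (P.parts.filter (fun A => 2 ≤ A.card))
      rw [← hQ] at hP ⊢
      have h2 : ∀ A ∈ Q, 2 ≤ A.card := by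
        intro A hA
        rw [hQ, mem_filter] at hA
        exact hA.2
      have hdis : ∀ A ∈ Q, ∀ B ∈ Q, A ≠ B → Disjoint A B := by
        intro A hA B hB hAB
        rw [hQ, mem_filter] at hA hB
        exact P.disjoint hA.1 hB.1 hAB
      refine ⟨h2, ?_, fun A hA B hB h => ⟨(convex_iff T hP).1 hT A hA B hB h,
        (convex_iff F hP).1 hF A hA B hB h⟩⟩
      have h3 := card_eq h2 hdis
      rw [← hP, hc] at h3
      omega
  rw [himg, Set.ncard_image_of_injOn]
  · rfl
  · intro P _ P' _ h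
    have h' : P.parts.filter (fun A => 2 ≤ A.card) = P'.parts.filter (fun A => 2 ≤ A.card) := h
    apply Finpartition.ext
    rw [parts_eq P, parts_eq P', h']

end Pool.Agent.V7H31.CD
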